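import Pool.Agent.R353.LZ.Ser

/-!
# Zeta functions of residue classes, their derivatives and their translates
-/

set_option autoImplicit false

open Filter Topology Set Asymptotics

namespace Pool.Agent.R353.LZ

/-- the arithmetic function `n ↦ (log n) ^ j n ^ (-ρ)` on the residue class `a` modulo `q` -/
noncomputable def fa (q : ℕ) (a : ZMod q) (j : ℕ) (ρ : ℝ) : R0 :=
  ⟨fun n => if n = 0 ∨ (n : ZMod q) ≠ a then 0 else (((Real.log n) ^ j * (n : ℝ) ^ (-ρ) : ℝ) : ℂ), by simp⟩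

theorem fa_apply (q : ℕ) (a : ZMod q) (j : ℕ) (ρ : ℝ) (n : ℕ) : fa q a j ρ n =
    if n = 0 ∨ (n : ZMod q) ≠ a then 0 else (((Real.log n) ^ j * (n : ℝ) ^ (-ρ) : ℝ) : ℂ) := rfl

/-- `∑ (log n) ^ j / n ^ s` over the `n ≥ 1` in the residue class `a` modulo `q` -/
noncomputable def pz (q : ℕ) (a : ZMod q) (j : ℕ) (s : ℝ) : ℝ :=
  ∑' n : ℕ, if n = 0 ∨ (n : ZMod q) ≠ a then 0 else (Real.log n) ^ j / (n : ℝ) ^ s

theorem fa_cv (q : ℕ) (a : ZMod q) (j : ℕ) {ρ : ℝ} (hρ : 0 ≤ ρ) : Cv (fa q a j ρ) := by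
  intro s hs
  refine LSeriesSummable_of_isBigO_rpow (x := 1 + (s - 1) / 2) ?_ ?_
  · rw [Complex.ofReal_re]
    linarith
  · have h1 : (fun x : ℝ => Real.log x ^ (j : ℝ)) =o[atTop] fun x : ℝ => x ^ ((s - 1) / 2) :=
      isLittleO_log_rpow_rpow_atTop (j : ℝ) (by linarith)
    have h2 := h1.isBigO.comp_tendsto (tendsto_natCast_atTop_atTop (R := ℝ))
    have h3 : (1 + (s - 1) / 2) - 1 = (s - 1) / 2 := by ring
    rw [h3]
    refine IsBigO.trans ?_ h2
    refine IsBigO.of_bound 1 ?_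
    filter_upwards [eventually_ge_atTop 1] with n hn
    have hn1 : (1 : ℝ) ≤ n := by exact_mod_cast hn
    have hl : 0 ≤ Real.log n := Real.log_nonneg hn1
    rw [one_mul, Function.comp_apply, Real.rpow_natCast, Real.norm_of_nonneg (pow_nonneg hl j), fa_apply]
    split
    · rw [norm_zero]
      positivity
    · rw [Complex.norm_real, Real.norm_of_nonneg (by positivity)]
      refine mul_le_of_le_one_right (by positivity) ?_
      rw [Real.rpow_neg (by positivity)]
      exact inv_le_one_of_one_le₀ (Real.one_le_rpow hn1 hρ)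

theorem fa_val (q : ℕ) (a : ZMod q) (j : ℕ) (ρ s : ℝ) :
    ((pz q a j (s + ρ) : ℝ) : ℂ) = LSeries (fun n => fa q a j ρ n) (s : ℂ) := by
  rw [pz, Complex.ofReal_tsum, LSeries]
  refine tsum_congr fun n => ?_
  rcases eq_or_ne n 0 with h | h
  · subst h
    rw [LSeries.term_zero]
    simp
  · have hn : (0 : ℝ) < n := by exact_mod_cast Nat.pos_of_ne_zero h
    rw [LSeries.term_of_ne_zero h, fa_apply]
    by_cases h1 : n = 0 ∨ (n : ZMod q) ≠ a
    · rw [if_pos h1, if_pos h1]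
      simp
    · rw [if_neg h1, if_neg h1]
      have h2 : ((n : ℕ) : ℂ) ^ (s : ℂ) = (((n : ℝ) ^ s : ℝ) : ℂ) := by
        rw [Complex.ofReal_cpow hn.le]
        push_cast
        rfl
      rw [h2, ← Complex.ofReal_div]
      congr 1
      rw [Real.rpow_neg hn.le, Real.rpow_add hn]
      field_simp

/-- the quotients of two of the functions `t ^ j exp (-r t)` -/
theorem quot {j j0 : ℕ} {r r0 : ℝ} (h : r0 < r ∨ (r = r0 ∧ j < j0)) :
    Tendsto (fun t : ℝ => t ^ j * Real.exp (-r * t) / (t ^ j0 * Real.exp (-r0 * t))) atTop (𝓝 0) := by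
  rcases h with h | ⟨h, hj⟩
  · set δ := r - r0 with hδ
    have hδ0 : 0 < δ := sub_pos.2 h
    have h2 : Tendsto (fun s : ℝ => (δ * s) ^ j * Real.exp (-(δ * s))) atTop (𝓝 0) :=
      (Real.tendsto_pow_mul_exp_neg_atTop_nhds_zero j).comp (tendsto_id.const_mul_atTop hδ0)
    have h3 := h2.const_mul ((δ ^ j)⁻¹)
    rw [mul_zero] at h3
    refine squeeze_zero' ?_ ?_ h3
    · filter_upwards [eventually_ge_atTop 0] with t ht
      positivity
    · filter_upwards [eventually_ge_atTop 1] with t ht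
      have ht0 : 0 < t := by linarith
      have h4 : t ^ j * Real.exp (-r * t) / (t ^ j0 * Real.exp (-r0 * t)) =
          t ^ j * Real.exp (-(δ * t)) / t ^ j0 := by
        have h5 : Real.exp (-r * t) = Real.exp (-(δ * t)) * Real.exp (-r0 * t) := by
          rw [← Real.exp_add]
          congr 1
          rw [hδ]
          ring
        rw [h5]
        have := Real.exp_pos (-r0 * t)
        field_simp
      have h5 : (δ ^ j)⁻¹ * ((δ * t) ^ j * Real.exp (-(δ * t))) = t ^ j * Real.exp (-(δ * t)) := by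
        rw [mul_pow]
        have : δ ^ j ≠ 0 := pow_ne_zero _ hδ0.ne'
        field_simp
      rw [h4, h5]
      exact div_le_self (by positivity) (one_le_pow₀ ht)
  · subst h
    refine (tendsto_pow_div_pow_atTop_zero (𝕜 := ℝ) hj).congr' ?_
    filter_upwards [eventually_gt_atTop 0] with t ht
    have := Real.exp_pos (-r * t)
    field_simp

section

variable {N w q : ℕ}

/-- **Linear independence on the primes.** -/
theorem lin [NeZero q] (r : Fin N → ℝ) (hr : Function.Injective r) (M : ℕ)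
    (c : Fin N × Fin (w + 1) × (ZMod q)ˣ → ℂ)
    (h : ∀ p : ℕ, p.Prime → M < p → ∑ y, c y * fa q (y.2.2 : ZMod q) (y.2.1 : ℕ) (r y.1) p = 0) : c = 0 := by
  classical
  by_contra hne
  obtain ⟨y0, hy0⟩ : ∃ y, c y ≠ 0 := by
    by_contra hcon
    push Not at hcon
    exact hne (funext hcon)
  set a0 := y0.2.2 with ha0
  set S : Finset (Fin N × Fin (w + 1)) := Finset.univ.filter fun x => c (x.1, x.2, a0) ≠ 0 with hS
  have hS0 : S.Nonempty := ⟨(y0.1, y0.2.1), Finset.mem_filter.2 ⟨Finset.mem_univ _, hy0⟩⟩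
  obtain ⟨x1, hx1, hx1m⟩ := S.exists_min_image (fun x => r x.1) hS0
  obtain ⟨x0, hx0, hx0m⟩ := (S.filter fun x => r x.1 = r x1.1).exists_max_image (fun x => (x.2 : ℕ))
    ⟨x1, Finset.mem_filter.2 ⟨hx1, rfl⟩⟩
  have hx0S := (Finset.mem_filter.1 hx0).1
  have hx0r := (Finset.mem_filter.1 hx0).2
  have hc0 : c (x0.1, x0.2, a0) ≠ 0 := (Finset.mem_filter.1 hx0S).2
  set G : Fin N × Fin (w + 1) → ℝ → ℝ := fun x t => t ^ (x.2 : ℕ) * Real.exp (-(r x.1) * t) with hG
  have hquot : ∀ x ∈ S.erase x0, Tendsto (fun t : ℝ => G x t / G x0 t) atTop (𝓝 0) := by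
    intro x hx
    have hxS := Finset.mem_of_mem_erase hx
    have hxne := Finset.ne_of_mem_erase hx
    refine quot ?_
    rcases lt_or_eq_of_le (hx1m x hxS) with h1 | h1
    · left
      rw [hx0r]
      exact h1
    · right
      have h2 : x ∈ S.filter fun x => r x.1 = r x1.1 := Finset.mem_filter.2 ⟨hxS, h1.symm⟩
      have h3 := hx0m x h2
      refine ⟨h1.symm.trans hx0r.symm, lt_of_le_of_ne h3 fun h4 => hxne ?_⟩
      exact Prod.ext (hr (h1.symm.trans hx0r.symm)) (Fin.ext h4)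
  have hL : Tendsto (fun t : ℝ => ∑ x ∈ S.erase x0, c (x.1, x.2, a0) * ((G x t / G x0 t : ℝ) : ℂ)) atTop (𝓝 0) := by
    have h1 : ∀ x ∈ S.erase x0, Tendsto (fun t : ℝ => c (x.1, x.2, a0) * ((G x t / G x0 t : ℝ) : ℂ)) atTop (𝓝 0) := by
      intro x hx
      have h2 := (Complex.continuous_ofReal.tendsto 0).comp (hquot x hx)
      rw [Complex.ofReal_zero] at h2
      have h3 := h2.const_mul (c (x.1, x.2, a0))
      rw [mul_zero] at h3
      exact h3
    have h2 := tendsto_finsetSum (S.erase x0) h1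
    simpa using h2
  have hev : ∀ᶠ t : ℝ in atTop, ‖∑ x ∈ S.erase x0, c (x.1, x.2, a0) * ((G x t / G x0 t : ℝ) : ℂ)‖ <
      ‖c (x0.1, x0.2, a0)‖ := by
    have h1 := hL.norm
    rw [norm_zero] at h1
    exact h1.eventually_lt_const (norm_pos_iff.2 hc0)
  obtain ⟨t0, ht0⟩ := eventually_atTop.1 hev
  obtain ⟨p, hp, hpp, hpa⟩ := Nat.forall_exists_prime_gt_and_eq_mod (q := q) (Units.isUnit a0)
    (max M ⌈Real.exp t0⌉₊)
  have hpM : M < p := lt_of_le_of_lt (le_max_left _ _) hp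
  have hpt : t0 ≤ Real.log p := by
    rw [Real.le_log_iff_exp_le (by exact_mod_cast hpp.pos)]
    refine (Nat.le_ceil _).trans ?_
    exact_mod_cast (lt_of_le_of_lt (le_max_right _ _) hp).le
  have h1 := ht0 _ hpt
  have hlog : 0 < Real.log p := Real.log_pos (by exact_mod_cast hpp.one_lt)
  have hval : ∀ x : Fin N × Fin (w + 1), fa q (a0 : ZMod q) (x.2 : ℕ) (r x.1) p = ((G x (Real.log p) : ℝ) : ℂ) := by
    intro x
    rw [fa_apply, if_neg]
    · congr 1
      rw [hG]
      simp only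
      congr 1
      rw [Real.rpow_def_of_pos (by exact_mod_cast hpp.pos)]
      congr 1
      ring
    · push Not
      exact ⟨hpp.ne_zero, hpa⟩
  have h2 : ∑ x : Fin N × Fin (w + 1), c (x.1, x.2, a0) * ((G x (Real.log p) : ℝ) : ℂ) = 0 := by
    have h3 := h p hpp hpM
    rw [Fintype.sum_prod_type] at h3
    rw [Fintype.sum_prod_type, ← h3]
    refine Finset.sum_congr rfl fun i _ => ?_
    rw [Fintype.sum_prod_type]
    refine Finset.sum_congr rfl fun j _ => ?_
    rw [Finset.sum_eq_single a0]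
    · rw [hval (i, j)]
    · intro a _ ha
      rw [fa_apply, if_pos]
      · rw [mul_zero]
      · right
        rw [hpa]
        intro h4
        exact ha (Units.ext h4.symm)
    · intro h4
      exact absurd (Finset.mem_univ _) h4
  have h3 : ∑ x ∈ S, c (x.1, x.2, a0) * ((G x (Real.log p) : ℝ) : ℂ) = 0 := by
    rw [← h2]
    refine Finset.sum_subset (Finset.subset_univ S) fun x _ hx => ?_
    have : c (x.1, x.2, a0) = 0 := by
      by_contra h4
      exact hx (Finset.mem_filter.2 ⟨Finset.mem_univ _, h4⟩)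
    rw [this, zero_mul]
  have hG0 : 0 < G x0 (Real.log p) := by
    rw [hG]
    simp only
    positivity
  have hG0c : ((G x0 (Real.log p) : ℝ) : ℂ) ≠ 0 := by exact_mod_cast hG0.ne'
  rw [← Finset.add_sum_erase S _ hx0S] at h3
  have h4 : c (x0.1, x0.2, a0) = -∑ x ∈ S.erase x0, c (x.1, x.2, a0) *
      ((G x (Real.log p) / G x0 (Real.log p) : ℝ) : ℂ) := by
    have h5 : (∑ x ∈ S.erase x0, c (x.1, x.2, a0) * ((G x (Real.log p) / G x0 (Real.log p) : ℝ) : ℂ)) *
        ((G x0 (Real.log p) : ℝ) : ℂ) = ∑ x ∈ S.erase x0, c (x.1, x.2, a0) * ((G x (Real.log p) : ℝ) : ℂ) := by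
      rw [Finset.sum_mul]
      refine Finset.sum_congr rfl fun x _ => ?_
      rw [Complex.ofReal_div]
      field_simp
    refine mul_right_cancel₀ hG0c ?_
    rw [neg_mul, h5]
    linear_combination h3
  rw [h4, norm_neg] at h1
  exact lt_irrefl _ h1

/-- **The functions are analytic and algebraically independent.** -/
theorem pz_ind [NeZero q] (r : Fin N → ℝ) (hr : Function.Injective r) (hr0 : ∀ i, 0 ≤ r i) (a b : ℝ)
    (ha : 1 < a) (hab : a < b) :
    (∀ y : Fin N × Fin (w + 1) × (ZMod q)ˣ,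
      AnalyticOnNhd ℝ (fun s => pz q (y.2.2 : ZMod q) (y.2.1 : ℕ) (s + r y.1)) (Ioi 1)) ∧
    Pool.Agent.Y120.AInd (fun (y : Fin N × Fin (w + 1) × (ZMod q)ˣ) s =>
      pz q (y.2.2 : ZMod q) (y.2.1 : ℕ) (s + r y.1)) a b := by
  set f : Fin N × Fin (w + 1) × (ZMod q)ˣ → R0 := fun y => fa q (y.2.2 : ZMod q) (y.2.1 : ℕ) (r y.1) with hf
  have hcv : ∀ y, Cv (f y) := fun y => fa_cv q _ _ (hr0 y.1)
  have hval : ∀ y, ∀ s : ℝ, 1 < s → (((fun (y : Fin N × Fin (w + 1) × (ZMod q)ˣ) s =>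
      pz q (y.2.2 : ZMod q) (y.2.1 : ℕ) (s + r y.1)) y s : ℝ) : ℂ) = LSeries (fun n => f y n) (s : ℂ) :=
    fun y s _ => fa_val q _ _ (r y.1) s
  have hind : AlgebraicIndependent ℂ f := alg_ind f fun M c h => lin r hr M c h
  exact ⟨fun y => u_an f _ hcv hval y, aindL f _ hcv hind hval a b ha hab⟩

end

end Pool.Agent.R353.LZ
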