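import Pool.Agent.R353.HZ.Diag
import Pool.Agent.Y549.PE.Core

/-!
# Values of algebraically independent analytic functions at almost all rational points
-/

set_option autoImplicit false

open Finset

namespace Pool.Agent.R353.LZ

open Pool.Agent.R353.HZ Pool.Agent.Y549.PE

/-- `P(ξ, Y)`: the polynomial `P`, with constants `ξ` in place of the variables of the first group -/
noncomputable def spec {G τ : Type} (ξ : G → ℂ) (P : MvPolynomial (G ⊕ τ) ℤ) : MvPolynomial τ ℂ :=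
  MvPolynomial.eval₂ (Int.castRingHom (MvPolynomial τ ℂ))
    (Sum.elim (fun i => MvPolynomial.C (ξ i)) MvPolynomial.X) P

section

variable {κ : Type} [Fintype κ]

/-- exponents -/
noncomputable def ff {n D : ℕ} (e : Fin n → κ → Fin (D + 1)) : (Fin n × κ) →₀ ℕ :=
  Finsupp.equivFunOnFinite.symm fun x => (e x.1 x.2 : ℕ)

theorem ff_inj {n D : ℕ} : Function.Injective (ff (n := n) (κ := κ) (D := D)) := by
  intro e e' h
  have h1 := Finsupp.equivFunOnFinite.symm.injective h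
  funext j i
  exact Fin.ext (congrFun h1 (j, i))

variable [DecidableEq κ]

theorem spec_eq {n g D : ℕ} (ξ : Fin g → ℂ) (P : MvPolynomial (Fin g ⊕ (Fin n × κ)) ℤ)
    (hP : ∀ z, P.degreeOf z ≤ D) : spec ξ P = ∑ e : Fin n → κ → Fin (D + 1),
      MvPolynomial.monomial (ff e) (cf ξ P e) := by
  have h0 : spec ξ P = @MvPolynomial.aeval ℤ (MvPolynomial (Fin n × κ) ℂ) (Fin g ⊕ (Fin n × κ)) _ _
      (Ring.toIntAlgebra _) (Sum.elim (fun i => MvPolynomial.C (ξ i)) MvPolynomial.X) P := rfl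
  rw [h0, aeval_R _ P hP]
  refine Finset.sum_congr rfl fun e _ => ?_
  simp only [Sum.elim_inl, Sum.elim_inr]
  have h1 : @MvPolynomial.aeval ℤ (MvPolynomial (Fin n × κ) ℂ) (Fin g) _ _
      (Ring.toIntAlgebra _) (fun i => (MvPolynomial.C (ξ i) : MvPolynomial (Fin n × κ) ℂ)) (Qe P e) =
      MvPolynomial.C (cf ξ P e) := by
    rw [aeval_Qe, cf, map_sum]
    refine Finset.sum_congr rfl fun v _ => ?_
    rw [map_mul, map_prod, map_intCast]
    simp only [map_pow]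
  rw [h1, MvPolynomial.monomial_eq, Finsupp.prod_fintype _ _ (fun i => pow_zero _), Fintype.prod_prod_type]
  rfl

theorem spec_coeff {n g D : ℕ} (ξ : Fin g → ℂ) (P : MvPolynomial (Fin g ⊕ (Fin n × κ)) ℤ)
    (hP : ∀ z, P.degreeOf z ≤ D) (m : (Fin n × κ) →₀ ℕ) :
    (∃ e : Fin n → κ → Fin (D + 1), (spec ξ P).coeff m = cf ξ P e) ∨ (spec ξ P).coeff m = 0 := by
  classical
  rw [spec_eq ξ P hP, MvPolynomial.coeff_sum]
  simp only [MvPolynomial.coeff_monomial]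
  by_cases h : ∃ e : Fin n → κ → Fin (D + 1), ff e = m
  · obtain ⟨e, he⟩ := h
    left
    refine ⟨e, ?_⟩
    rw [Finset.sum_eq_single e]
    · rw [if_pos he]
    · intro e' _ hne
      rw [if_neg]
      intro h'
      exact hne (ff_inj (h'.trans he.symm))
    · intro h'
      exact absurd (Finset.mem_univ _) h'
  · right
    refine Finset.sum_eq_zero fun e _ => ?_
    rw [if_neg]
    intro h'
    exact h ⟨e, h'⟩

theorem general (n g D : ℕ) (hn : 1 ≤ n) (u : κ → ℝ → ℝ) (a b A ε : ℝ) (hab : a < b) (hε : 0 < ε)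
    (han : ∀ k, AnalyticOnNhd ℝ (u k) (Set.Icc a b)) (hind : Pool.Agent.Y120.AInd u a b) :
    ∃ B C : ℝ, 0 ≤ B ∧ 0 < C ∧ ∀ T : ℝ, 1 ≤ T → ∀ ξ : Fin g → ℂ, ∃ S : Finset (Fin n → ℚ),
      (S.card : ℝ) ≤ C * T ^ (2 * ((n : ℝ) - 1) + ε) ∧ ∀ q : Fin n → ℚ,
      (∀ l, a ≤ q l ∧ q l ≤ b ∧ ((q l).den : ℝ) ≤ T) → q ∉ S →
      ∀ P : MvPolynomial (Fin g ⊕ (Fin n × κ)) ℤ, (∀ z, P.degreeOf z ≤ D) →
        (∀ s, |((P.coeff s : ℤ) : ℝ)| ≤ T ^ A) → spec ξ P ≠ 0 → ∀ m : (Fin n × κ) →₀ ℕ,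
        T ^ (-B) * ‖(spec ξ P).coeff m‖ <
          ‖MvPolynomial.aeval (Sum.elim ξ fun x : Fin n × κ => ((u x.2 (q x.1) : ℝ) : ℂ)) P‖ := by
  obtain ⟨B, C, hB, hC, h⟩ := core (G := Fin g) (D := D) hn u a b hab han hind A ε hε
  refine ⟨B, C, hB, hC, fun T hT ξ => ?_⟩
  obtain ⟨S, hS, hq⟩ := h T hT ξ
  refine ⟨S, hS, fun q hqT hqS P hPd hPc hne m => ?_⟩
  have h1 := hq q hqT hqS P hPd hPc
  obtain ⟨e0, he0⟩ : ∃ e : Fin n → κ → Fin (D + 1), cf ξ P e ≠ 0 := by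
    by_contra hcon
    push Not at hcon
    apply hne
    rw [spec_eq ξ P hPd]
    refine Finset.sum_eq_zero fun e _ => ?_
    rw [hcon e, map_zero]
  have hpos : 0 < T ^ (-B) := Real.rpow_pos_of_pos (by linarith) _
  have h2 : 0 < ‖MvPolynomial.aeval (Sum.elim ξ fun x : Fin n × κ => ((u x.2 (q x.1) : ℝ) : ℂ)) P‖ := by
    refine lt_of_le_of_lt ?_ (not_le.1 fun hle => he0 (h1 e0 hle))
    positivity
  rcases spec_coeff ξ P hPd m with ⟨e, he⟩ | hm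
  · rw [he]
    by_contra hcon
    have h3 := h1 e (not_lt.1 hcon)
    rw [h3, norm_zero, mul_zero] at hcon
    exact hcon h2
  · rw [hm, norm_zero, mul_zero]
    exact h2

end

/-- families of functions on intervals, with parameters -/
structure Fam where
  /-- index type -/
  κ : Type
  /-- finite -/
  fin : Fintype κ
  /-- decidable equality -/
  dec : DecidableEq κ
  /-- the functions -/
  u : κ → ℝ → ℝ
  /-- left end -/
  a : ℝ
  /-- right end -/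
  b : ℝ
  /-- number of constants -/
  g : ℕ
  /-- degree -/
  D : ℕ
  /-- exponent -/
  A : ℕ

/-- the hypotheses -/
def Fam.OK (F : Fam) : Prop :=
  F.a < F.b ∧ (∀ k, AnalyticOnNhd ℝ (F.u k) (Set.Icc F.a F.b)) ∧
    @Pool.Agent.Y120.AInd F.κ F.fin F.dec F.u F.a F.b

/-- the change of variables -/
def em (g : ℕ) (κ : Type) : Fin g ⊕ κ → Fin g ⊕ (Fin 1 × κ) := Sum.map id fun i => (0, i)

theorem em_inj (g : ℕ) (κ : Type) : Function.Injective (em g κ) := by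
  refine Function.Injective.sumMap Function.injective_id ?_
  intro i i' h
  exact (Prod.mk.inj h).2

theorem em_surj (g : ℕ) (κ : Type) : Function.Surjective (em g κ) := by
  rintro (z | ⟨z0, z⟩)
  · exact ⟨Sum.inl z, rfl⟩
  · refine ⟨Sum.inr z, ?_⟩
    have h0 : z0 = 0 := Subsingleton.elim _ _
    rw [h0]
    rfl

/-- the property -/
def Pr (ξ : ℕ → ℂ) (F : Fam) (T : ℝ) (x : ℚ) : Prop :=
  F.a ≤ x → (x : ℝ) ≤ F.b →
    ∀ P : MvPolynomial (Fin F.g ⊕ (Fin 1 × F.κ)) ℤ, (∀ z, P.degreeOf z ≤ F.D) →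
      (∀ s, |((P.coeff s : ℤ) : ℝ)| ≤ T ^ (F.A : ℝ)) →
      MvPolynomial.aeval (Sum.elim (fun i : Fin F.g => ξ i)
        fun y : Fin 1 × F.κ => ((F.u y.2 x : ℝ) : ℂ)) P = 0 →
      spec (fun i : Fin F.g => ξ i) P = 0

theorem pr_of (ξ : ℕ → ℂ) (F : Fam) (hF : F.OK) (ε : ℝ) (hε : 0 < ε) :
    ∃ C : ℝ, ∀ T : ℝ, 1 ≤ T → ∃ S : Finset ℚ, (S.card : ℝ) ≤ C * T ^ ε ∧
      ∀ x : ℚ, (x.den : ℝ) ≤ T → x ∉ S → Pr ξ F T x := by
  classical
  obtain ⟨hab, han, hind⟩ := hF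
  let _ := F.fin
  let _ := F.dec
  obtain ⟨B, C, hB, hC, h⟩ := general 1 F.g F.D le_rfl F.u F.a F.b F.A ε hab hε han hind
  refine ⟨C, fun T hT => ?_⟩
  obtain ⟨S, hS, hq⟩ := h T hT (fun i : Fin F.g => ξ i)
  refine ⟨S.image fun q => q 0, ?_, fun x hx hxS => ?_⟩
  · have h1 : (((S.image fun q => q 0).card : ℕ) : ℝ) ≤ (S.card : ℝ) := by exact_mod_cast Finset.card_image_le
    refine h1.trans (hS.trans (le_of_eq ?_))
    norm_num
  · intro hx1 hx2 P hPd hPc hP0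
    by_contra hne
    have hqS : (fun _ : Fin 1 => x) ∉ S := fun hm => hxS (Finset.mem_image.2 ⟨_, hm, rfl⟩)
    have h1 := hq (fun _ => x) (fun _ => ⟨hx1, hx2, hx⟩) hqS P hPd hPc hne 0
    have h2 : MvPolynomial.aeval (Sum.elim (fun i : Fin F.g => ξ i)
        fun y : Fin 1 × F.κ => ((F.u y.2 ((fun _ : Fin 1 => x) y.1 : ℚ) : ℝ) : ℂ)) P = 0 := hP0
    rw [h2, norm_zero] at h1
    have h3 : 0 ≤ T ^ (-B) * ‖(spec (fun i : Fin F.g => ξ i) P).coeff 0‖ :=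
      mul_nonneg (Real.rpow_nonneg (by linarith) _) (norm_nonneg _)
    linarith

/-- **One exceptional set.** -/
theorem diagFam (ξ : ℕ → ℂ) (F : ℕ → Fam) (hF : ∀ i, (F i).OK) :
    ∃ E : Set ℚ, (∀ ε : ℝ, 0 < ε → ∃ C : ℝ, ∀ T : ℝ, 1 ≤ T →
        {x ∈ E | (x.den : ℝ) ≤ T}.Finite ∧ ({x ∈ E | (x.den : ℝ) ≤ T}.ncard : ℝ) ≤ C * T ^ ε) ∧
      ∀ i, ∃ N : ℕ, ∀ x : ℚ, (F i).a ≤ x → x ≤ (F i).b → N ≤ x.den → x ∉ E →
        ∀ P : MvPolynomial (Fin (F i).g ⊕ (F i).κ) ℤ, (∀ z, P.degreeOf z ≤ (F i).D) →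
          (∀ s, |((P.coeff s : ℤ) : ℝ)| ≤ (x.den : ℝ) ^ (F i).A) →
          MvPolynomial.aeval (Sum.elim (fun j : Fin (F i).g => ξ j) fun k => (((F i).u k x : ℝ) : ℂ)) P = 0 →
          spec (fun j : Fin (F i).g => ξ j) P = 0 := by
  classical
  obtain ⟨E, hE, hEp⟩ := diag (fun i => Pr ξ (F i)) (fun i ε hε => pr_of ξ (F i) (hF i) ε hε)
  refine ⟨E, hE, fun i => ?_⟩
  obtain ⟨N, hN⟩ := hEp i
  refine ⟨N, fun x hax hxb hNx hxE P hPd hPc hP0 => ?_⟩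
  obtain ⟨T, hT, h⟩ := hN x hNx hxE
  have h1 := h hax hxb (MvPolynomial.rename (em (F i).g (F i).κ) P) (fun z => ?_) (fun s => ?_) ?_
  · -- back
    have h2 := congrArg ((MvPolynomial.aeval (R := ℂ)
      (fun y : Fin 1 × (F i).κ => (MvPolynomial.X y.2 : MvPolynomial (F i).κ ℂ)) :
      MvPolynomial (Fin 1 × (F i).κ) ℂ →ₐ[ℂ] MvPolynomial (F i).κ ℂ) :
      MvPolynomial (Fin 1 × (F i).κ) ℂ →+* MvPolynomial (F i).κ ℂ) h1
    rw [map_zero] at h2
    rw [← h2, spec, spec, MvPolynomial.eval₂_rename, MvPolynomial.eval₂_comp_left]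
    congr 1
    · exact RingHom.ext_int _ _
    · funext z
      rcases z with z | z
      · simp [em]
      · simp [em]
  · obtain ⟨z, rfl⟩ := em_surj _ _ z
    rw [MvPolynomial.degreeOf_rename_of_injective (em_inj _ _)]
    exact hPd z
  · have hT1 : (1 : ℝ) ≤ x.den := by exact_mod_cast x.pos
    have hT2 : ((x.den : ℝ)) ^ (F i).A ≤ T ^ (((F i).A : ℕ) : ℝ) := by
      rw [Real.rpow_natCast]
      exact pow_le_pow_left₀ (by positivity) hT _
    by_cases hs : ∃ v, Finsupp.mapDomain (em (F i).g (F i).κ) v = s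
    · obtain ⟨v, rfl⟩ := hs
      rw [MvPolynomial.coeff_rename_mapDomain _ (em_inj _ _)]
      exact (hPc v).trans hT2
    · rw [MvPolynomial.coeff_rename_eq_zero _ _ _ (fun v hv => absurd ⟨v, hv⟩ hs)]
      simp only [Int.cast_zero, abs_zero]
      exact Real.rpow_nonneg (by linarith) _
  · rw [MvPolynomial.aeval_rename]
    refine Eq.trans ?_ hP0
    congr 2
    funext z
    rcases z with z | z <;> rfl

end Pool.Agent.R353.LZ
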