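import Mathlib

/-!
# Algebraic independence of arithmetic functions (Dirichlet convolution)

If the restrictions of `f_1, …, f_m` to the primes `p > N` are linearly independent for every `N`, then
`f_1, …, f_m` are algebraically independent.
-/

set_option autoImplicit false

open MvPolynomial

namespace Pool.Agent.R353.LZ

/-- arithmetic functions -/
abbrev R0 : Type := ArithmeticFunction ℂ

/-- the derivation `f ↦ v_p f` -/
noncomputable def dv (p : ℕ) (f : R0) : R0 := ⟨fun n => (padicValNat p n : ℂ) * f n, by simp⟩

theorem dv_apply (p : ℕ) (f : R0) (n : ℕ) : dv p f n = (padicValNat p n : ℂ) * f n := rfl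

theorem dv_add (p : ℕ) (f g : R0) : dv p (f + g) = dv p f + dv p g := by
  ext n
  rw [ArithmeticFunction.add_apply, dv_apply, dv_apply, dv_apply, ArithmeticFunction.add_apply, mul_add]

theorem dv_algebraMap (p : ℕ) (c : ℂ) : dv p (algebraMap ℂ R0 c) = 0 := by
  ext n
  rw [dv_apply, Algebra.algebraMap_eq_smul_one, ArithmeticFunction.smul_map]
  rcases eq_or_ne n 1 with h | h
  · subst h
    simp
  · rw [ArithmeticFunction.one_apply_ne h]
    simp

theorem dv_mul {p : ℕ} (hp : p.Prime) (f g : R0) : dv p (f * g) = dv p f * g + f * dv p g := by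
  have : Fact p.Prime := ⟨hp⟩
  ext n
  rw [dv_apply, ArithmeticFunction.add_apply, ArithmeticFunction.mul_apply, ArithmeticFunction.mul_apply,
    ArithmeticFunction.mul_apply, Finset.mul_sum, ← Finset.sum_add_distrib]
  refine Finset.sum_congr rfl fun x hx => ?_
  have hn := Nat.mem_divisorsAntidiagonal.1 hx
  have h0 : x.1 * x.2 ≠ 0 := by rw [hn.1]; exact hn.2
  have h1 : x.1 ≠ 0 := left_ne_zero_of_mul h0
  have h2 : x.2 ≠ 0 := right_ne_zero_of_mul h0
  rw [dv_apply, dv_apply, ← hn.1, padicValNat.mul h1 h2]
  push_cast
  ring

/-- no zero divisors -/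
theorem mul_ne {f g : R0} (hf : f ≠ 0) (hg : g ≠ 0) : f * g ≠ 0 := by
  classical
  have hex : ∀ h : R0, h ≠ 0 → ∃ n, h n ≠ 0 := by
    intro h hh
    by_contra hcon
    push Not at hcon
    exact hh (ArithmeticFunction.ext fun n => hcon n)
  set a := Nat.find (hex f hf)
  set b := Nat.find (hex g hg)
  have ha : f a ≠ 0 := Nat.find_spec (hex f hf)
  have hb : g b ≠ 0 := Nat.find_spec (hex g hg)
  have ha' : ∀ m < a, f m = 0 := fun m hm => not_not.1 (Nat.find_min (hex f hf) hm)
  have hb' : ∀ m < b, g m = 0 := fun m hm => not_not.1 (Nat.find_min (hex g hg) hm)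
  have ha0 : a ≠ 0 := by
    intro h
    rw [h] at ha
    exact ha ArithmeticFunction.map_zero
  have hb0 : b ≠ 0 := by
    intro h
    rw [h] at hb
    exact hb ArithmeticFunction.map_zero
  intro h0
  have h1 : (f * g) (a * b) = f a * g b := by
    rw [ArithmeticFunction.mul_apply, Finset.sum_eq_single (a, b)]
    · intro x hx hne
      have hn := Nat.mem_divisorsAntidiagonal.1 hx
      rcases lt_or_ge x.1 a with h | h
      · rw [ha' _ h, zero_mul]
      · rcases lt_or_ge x.2 b with h' | h'
        · rw [hb' _ h', mul_zero]
        · exfalso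
          apply hne
          have h3 : x.1 = a := by
            by_contra hcon
            have h4 : a < x.1 := lt_of_le_of_ne h (Ne.symm hcon)
            have h5 : a * b < x.1 * x.2 :=
              calc a * b < x.1 * b := Nat.mul_lt_mul_of_pos_right h4 (Nat.pos_of_ne_zero hb0)
                _ ≤ x.1 * x.2 := Nat.mul_le_mul_left _ h'
            omega
          have h4 : x.2 = b := by
            have h5 := hn.1
            rw [h3] at h5
            exact Nat.eq_of_mul_eq_mul_left (Nat.pos_of_ne_zero ha0) h5
          exact Prod.ext h3 h4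
    · intro h
      exfalso
      apply h
      rw [Nat.mem_divisorsAntidiagonal]
      exact ⟨rfl, Nat.mul_ne_zero ha0 hb0⟩
  rw [h0] at h1
  exact mul_ne_zero ha hb h1.symm

theorem dv_aeval {κ : Type} [Fintype κ] [DecidableEq κ] (f : κ → R0) {p : ℕ} (hp : p.Prime)
    (Q : MvPolynomial κ ℂ) : dv p (aeval f Q) = ∑ y, aeval f (pderiv y Q) * dv p (f y) := by
  induction Q using MvPolynomial.induction_on with
  | C a =>
    rw [aeval_C, dv_algebraMap]
    simp
  | add P Q hP hQ =>
    rw [map_add, dv_add, hP, hQ, ← Finset.sum_add_distrib]
    refine Finset.sum_congr rfl fun y _ => ?_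
    rw [map_add, map_add, add_mul]
  | mul_X Q i hQ =>
    rw [map_mul, dv_mul hp, hQ, aeval_X]
    have h1 : ∀ y, aeval f (pderiv y (Q * X i)) * dv p (f y) =
        aeval f (pderiv y Q) * dv p (f y) * f i + (if y = i then aeval f Q * dv p (f y) else 0) := by
      intro y
      rw [pderiv_mul, map_add, map_mul, map_mul, aeval_X, pderiv_X]
      by_cases h : y = i
      · subst h
        rw [Pi.single_eq_same, map_one, if_pos rfl]
        ring
      · rw [if_neg h, Pi.single_eq_of_ne (Ne.symm h), map_zero]
        ring
    rw [Finset.sum_congr rfl fun y _ => h1 y, Finset.sum_add_distrib, Finset.sum_ite_eq' Finset.univ i,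
      if_pos (Finset.mem_univ i), Finset.sum_mul]

/-- **Jacobian criterion.** -/
theorem alg_ind {κ : Type} [Fintype κ] [DecidableEq κ] (f : κ → R0)
    (h : ∀ (N : ℕ) (c : κ → ℂ), (∀ p : ℕ, p.Prime → N < p → ∑ y, c y * f y p = 0) → c = 0) :
    AlgebraicIndependent ℂ f := by
  classical
  -- no kernel
  have hker : ∀ v : κ → R0, (∀ p : ℕ, p.Prime → ∑ y, v y * dv p (f y) = 0) → v = 0 := by
    intro v hv
    by_contra hne
    have hex : ∃ n, ∃ y, v y n ≠ 0 := by
      by_contra hcon
      push Not at hcon
      apply hne
      funext y
      exact ArithmeticFunction.ext fun n => hcon n y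
    set m := Nat.find hex with hm
    obtain ⟨y0, hy0⟩ := Nat.find_spec hex
    have hmin : ∀ k < m, ∀ y, v y k = 0 := by
      intro k hk y
      by_contra hcon
      exact Nat.find_min hex hk ⟨y, hcon⟩
    have hm0 : m ≠ 0 := by
      intro h0
      rw [← hm, h0] at hy0
      exact hy0 ArithmeticFunction.map_zero
    have h1 := h m (fun y => v y m) (fun p hp hmp => by
      have : Fact p.Prime := ⟨hp⟩
      have h2 := hv p hp
      have h3 : (∑ y, v y * dv p (f y)) (m * p) = ∑ y, v y m * f y p := by
        have h4 : ∀ s : Finset κ, (∑ y ∈ s, v y * dv p (f y)) (m * p) = ∑ y ∈ s, (v y * dv p (f y)) (m * p) := by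
          intro s
          induction s using Finset.induction_on with
          | empty => simp
          | insert a s ha ih => rw [Finset.sum_insert ha, ArithmeticFunction.add_apply, ih, Finset.sum_insert ha]
        rw [h4]
        refine Finset.sum_congr rfl fun y _ => ?_
        rw [ArithmeticFunction.mul_apply, Finset.sum_eq_single (m, p)]
        · rw [dv_apply, padicValNat_self]
          simp
        · intro x hx hne'
          have hn := Nat.mem_divisorsAntidiagonal.1 hx
          rcases lt_or_ge x.1 m with h5 | h5
          · rw [hmin _ h5, zero_mul]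
          · by_cases h6 : p ∣ x.2
            · exfalso
              apply hne'
              obtain ⟨u, hu⟩ := h6
              have h7 : x.1 * u = m := by
                have h8 : p * (x.1 * u) = p * m := by
                  calc p * (x.1 * u) = x.1 * (p * u) := by ring
                    _ = x.1 * x.2 := by rw [hu]
                    _ = m * p := hn.1
                    _ = p * m := by ring
                exact Nat.eq_of_mul_eq_mul_left hp.pos h8
              have hu1 : u = 1 := by
                rcases Nat.eq_zero_or_pos u with h8 | h8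
                · rw [h8, mul_zero] at h7
                  exact absurd h7.symm hm0
                · by_contra h9
                  have h10 : 2 ≤ u := by omega
                  have h11 : x.1 * 2 ≤ x.1 * u := Nat.mul_le_mul_left _ h10
                  omega
              rw [hu1, mul_one] at h7 hu
              exact Prod.ext h7 hu
            · rw [dv_apply, padicValNat.eq_zero_of_not_dvd h6]
              simp
        · intro h5
          exfalso
          apply h5
          rw [Nat.mem_divisorsAntidiagonal]
          exact ⟨rfl, Nat.mul_ne_zero hm0 hp.pos.ne'⟩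
      rw [← h3, h2]
      rfl)
    exact hy0 (congrFun h1 y0)
  -- minimal relations
  rw [algebraicIndependent_iff]
  have key : ∀ d : ℕ, ∀ Q : MvPolynomial κ ℂ, Q.totalDegree ≤ d → aeval f Q = 0 → Q = 0 := by
    intro d
    induction d with
    | zero =>
      intro Q hQ h0
      have h1 : Q = C (Q.coeff 0) := (totalDegree_eq_zero_iff_eq_C).1 (by omega)
      rw [h1, aeval_C] at h0
      have h2 := congrArg (fun F : R0 => F 1) h0
      simp only [ArithmeticFunction.algebraMap_apply_one] at h2
      have h3 : Q.coeff 0 = 0 := by simpa using h2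
      rw [h1, h3, map_zero]
    | succ d ih =>
      intro Q hQ h0
      have hv : (fun y => aeval f (pderiv y Q)) = (0 : κ → R0) := by
        refine hker _ fun p hp => ?_
        rw [← dv_aeval f hp Q, h0]
        ext n
        rw [dv_apply]
        simp
      have hpd : ∀ y, pderiv y Q = 0 := by
        intro y
        refine ih _ ?_ (congrFun hv y)
        refine Finset.sup_le fun s hs => ?_
        rw [mem_support_iff, coeff_pderiv] at hs
        have h1 : coeff (s + Finsupp.single y 1) Q ≠ 0 := left_ne_zero_of_mul hs
        have h2 := le_totalDegree (mem_support_iff.2 h1)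
        have h3 : ((s + Finsupp.single y 1).sum fun _ e => e) = (s.sum fun _ e => e) + 1 := by
          rw [Finsupp.sum_add_index' (fun _ => rfl) (fun _ _ _ => rfl), Finsupp.sum_single_index rfl]
        omega
      refine ih Q ?_ h0
      -- Q is constant
      have h1 : Q.totalDegree = 0 := by
        rw [totalDegree_eq_zero_iff]
        intro s hs y
        by_contra hne
        have h2 := coeff_pderiv (i := y) Q (s - Finsupp.single y 1)
        have h3 : s - Finsupp.single y 1 + Finsupp.single y 1 = s := by
          refine tsub_add_cancel_of_le ?_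
          rw [Finsupp.single_le_iff]
          omega
        rw [h3, hpd y, coeff_zero] at h2
        have h4 : coeff s Q ≠ 0 := mem_support_iff.1 hs
        have h5 : (((s - Finsupp.single y 1 : κ →₀ ℕ) y : ℕ) : ℂ) + 1 ≠ 0 := Nat.cast_add_one_ne_zero _
        exact mul_ne_zero h4 h5 h2.symm
      omega
  exact fun Q hQ => key _ Q le_rfl hQ

end Pool.Agent.R353.LZ
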