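import Pool.Agent.R353.LZ.Jac
import Pool.Agent.Y120.RealCh

/-!
# Dirichlet series and rational functions: algebraic independence over `ℝ(s)`
-/

set_option autoImplicit false

open Filter Topology Set

namespace Pool.Agent.R353.LZ

/-- absolute convergence for `s > 1` -/
def Cv (f : R0) : Prop := ∀ s : ℝ, 1 < s → LSeriesSummable (fun n => f n) (s : ℂ)

theorem Cv_one_smul (c : ℂ) : Cv (algebraMap ℂ R0 c) := by
  intro s _
  refine summable_of_ne_finset_zero (s := {1}) fun n hn => ?_
  rw [Finset.mem_singleton] at hn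
  rcases eq_or_ne n 0 with h | h
  · rw [h, LSeries.term_zero]
  · rw [LSeries.term_of_ne_zero h, Algebra.algebraMap_eq_smul_one, ArithmeticFunction.smul_map,
      ArithmeticFunction.one_apply_ne hn]
    simp

/-- the algebra -/
noncomputable def A1 : Subalgebra ℂ R0 where
  carrier := {f | Cv f}
  mul_mem' := fun hf hg s hs => ArithmeticFunction.LSeriesSummable_mul (hf s hs) (hg s hs)
  add_mem' := fun hf hg s hs => LSeriesSummable.add (hf s hs) (hg s hs)
  algebraMap_mem' := fun c => Cv_one_smul c

theorem mem_A1 {f : R0} : f ∈ A1 ↔ Cv f := Iff.rfl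

/-- evaluation at `s` -/
noncomputable def ev (s : ℝ) (hs : 1 < s) : A1 →ₐ[ℂ] ℂ where
  toFun f := LSeries (fun n => f.1 n) (s : ℂ)
  map_one' := by
    rw [LSeries, tsum_eq_single 1]
    · rw [LSeries.term_of_ne_zero one_ne_zero]
      simp
    · intro n hn
      rcases eq_or_ne n 0 with h | h
      · rw [h, LSeries.term_zero]
      · rw [LSeries.term_of_ne_zero h]
        have : (1 : A1).1 n = 0 := ArithmeticFunction.one_apply_ne hn
        rw [this, zero_div]
  map_mul' := fun f g => ArithmeticFunction.LSeries_mul' (f.2 s hs) (g.2 s hs)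
  map_zero' := by
    rw [LSeries]
    refine (tsum_congr fun n => ?_).trans tsum_zero
    rcases eq_or_ne n 0 with h | h
    · rw [h, LSeries.term_zero]
    · rw [LSeries.term_of_ne_zero h]
      have : (0 : A1).1 n = 0 := rfl
      rw [this, zero_div]
  map_add' := fun f g => LSeries_add (f.2 s hs) (g.2 s hs)
  commutes' := fun c => by
    rw [LSeries, tsum_eq_single 1]
    · rw [LSeries.term_of_ne_zero one_ne_zero]
      have : (algebraMap ℂ A1 c).1 1 = c := ArithmeticFunction.algebraMap_apply_one c
      rw [this]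
      simp
    · intro n hn
      rcases eq_or_ne n 0 with h | h
      · rw [h, LSeries.term_zero]
      · rw [LSeries.term_of_ne_zero h]
        have : (algebraMap ℂ A1 c).1 n = 0 := by
          change (algebraMap ℂ R0 c) n = 0
          rw [Algebra.algebraMap_eq_smul_one, ArithmeticFunction.smul_map, ArithmeticFunction.one_apply_ne hn]
          simp
        rw [this, zero_div]

theorem ev_apply (s : ℝ) (hs : 1 < s) (f : A1) : ev s hs f = LSeries (fun n => f.1 n) (s : ℂ) := rfl

theorem Cv.absc {f : R0} (hf : Cv f) : LSeries.abscissaOfAbsConv (fun n => f n) ≤ 1 :=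
  LSeries.abscissaOfAbsConv_le_of_forall_lt_LSeriesSummable fun y hy => hf y hy

/-- `s ^ j (n / (n + 1)) ^ s → 0` -/
theorem decay (j : ℕ) {ρ : ℝ} (h0 : 0 < ρ) (h1 : ρ < 1) :
    Tendsto (fun s : ℝ => s ^ j * ρ ^ s) atTop (𝓝 0) := by
  set β : ℝ := -Real.log ρ with hβ
  have hβ0 : 0 < β := neg_pos.2 (Real.log_neg h0 h1)
  have h2 : Tendsto (fun s : ℝ => (β * s) ^ j * Real.exp (-(β * s))) atTop (𝓝 0) :=
    (Real.tendsto_pow_mul_exp_neg_atTop_nhds_zero j).comp (tendsto_id.const_mul_atTop hβ0)
  have h3 := h2.const_mul ((β ^ j)⁻¹)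
  rw [mul_zero] at h3
  refine h3.congr fun s => ?_
  rw [Real.rpow_def_of_pos h0, mul_pow]
  have h4 : β ^ j ≠ 0 := pow_ne_zero _ hβ0.ne'
  have h5 : -(β * s) = Real.log ρ * s := by rw [hβ]; ring
  rw [h5]
  field_simp

/-- relations over the polynomials in `s` -/
theorem asym (J : ℕ) (c : ℕ → R0) (hc : ∀ j, Cv (c j))
    (h : ∀ s : ℝ, 1 < s → ∑ j ∈ Finset.range J, (s : ℂ) ^ j * LSeries (fun n => c j n) (s : ℂ) = 0) :
    ∀ j < J, c j = 0 := by
  classical
  have key : ∀ n : ℕ, ∀ m ≤ n, ∀ j < J, c j m = 0 := by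
    intro n
    induction n with
    | zero =>
      intro m hm j _
      rw [Nat.le_zero.1 hm]
      exact ArithmeticFunction.map_zero
    | succ n ih =>
      have hlim : ∀ j < J, Tendsto (fun s : ℝ => (s : ℂ) ^ j *
          (((n + 1 : ℕ) : ℂ) ^ (s : ℂ) * LSeries (fun m => c j m) (s : ℂ) - c j (n + 1))) atTop (𝓝 0) := by
        intro j hj
        -- remove the term `n + 1`
        set f' : ℕ → ℂ := fun m => if m = n + 1 then 0 else c j m with hf'
        have hf'0 : ∀ m ≤ n + 1, f' m = 0 := by
          intro m hm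
          rw [hf']
          simp only
          split
          · rfl
          · exact ih m (by omega) j hj
        have hs' : ∀ s : ℝ, 1 < s → LSeriesSummable f' (s : ℂ) := by
          intro s hs
          refine Summable.of_norm_bounded (hc j s hs).norm fun m => ?_
          refine LSeries.norm_term_le _ ?_
          rw [hf']
          simp only
          split
          · simp
          · exact le_rfl
        have hab : LSeries.abscissaOfAbsConv f' < ⊤ :=
          lt_of_le_of_lt (LSeries.abscissaOfAbsConv_le_of_forall_lt_LSeriesSummable (x := 1) fun y hy => hs' y hy)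
            (EReal.coe_lt_top 1)
        have h1 := LSeries.tendsto_cpow_mul_atTop hf'0 hab
        have hn1 : (0 : ℝ) < (n : ℝ) + 1 := by positivity
        have hn2 : (0 : ℝ) < (n : ℝ) + 2 := by positivity
        have h2 := decay j (ρ := ((n : ℝ) + 1) / ((n : ℝ) + 2)) (by positivity) (by
          rw [div_lt_one hn2]
          linarith)
        have h3 : Tendsto (fun s : ℝ => ((s ^ j * (((n : ℝ) + 1) / ((n : ℝ) + 2)) ^ s : ℝ) : ℂ)) atTop (𝓝 0) := by
          have h3' := (Complex.continuous_ofReal.tendsto 0).comp h2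
          rw [Complex.ofReal_zero] at h3'
          exact h3'
        have h4 := h3.mul h1
        rw [zero_mul] at h4
        refine h4.congr' ?_
        filter_upwards [eventually_gt_atTop 1] with s hs
        have h5 : LSeries (fun m => c j m) (s : ℂ) = c j (n + 1) / ((n + 1 : ℕ) : ℂ) ^ (s : ℂ) + LSeries f' (s : ℂ) := by
          have h6 : LSeries (fun m => c j m) (s : ℂ) - LSeries f' (s : ℂ) =
              c j (n + 1) / ((n + 1 : ℕ) : ℂ) ^ (s : ℂ) := by
            rw [LSeries, LSeries, ← (hc j s hs).tsum_sub (hs' s hs), tsum_eq_single (n + 1)]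
            · rw [LSeries.term_of_ne_zero (Nat.succ_ne_zero n), LSeries.term_of_ne_zero (Nat.succ_ne_zero n), hf']
              simp
            · intro m hm
              rcases eq_or_ne m 0 with h7 | h7
              · rw [h7, LSeries.term_zero, LSeries.term_zero, sub_zero]
              · rw [LSeries.term_of_ne_zero h7, LSeries.term_of_ne_zero h7, hf']
                simp only
                rw [if_neg hm, sub_self]
          rw [← h6]
          ring
        have hc1 : ((n + 1 : ℕ) : ℂ) ^ (s : ℂ) = ((((n : ℝ) + 1) ^ s : ℝ) : ℂ) := by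
          rw [Complex.ofReal_cpow hn1.le]
          push_cast
          rfl
        have hc2 : (((n + 1 : ℕ) : ℂ) + 1) ^ (s : ℂ) = ((((n : ℝ) + 2) ^ s : ℝ) : ℂ) := by
          rw [Complex.ofReal_cpow hn2.le]
          push_cast
          congr 1
          ring
        have hp1 : ((((n : ℝ) + 1) ^ s : ℝ) : ℂ) ≠ 0 := by
          exact_mod_cast (Real.rpow_pos_of_pos hn1 s).ne'
        have hp2 : ((((n : ℝ) + 2) ^ s : ℝ) : ℂ) ≠ 0 := by
          exact_mod_cast (Real.rpow_pos_of_pos hn2 s).ne'
        rw [h5, hc1, hc2, Real.div_rpow hn1.le hn2.le]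
        push_cast at hp1 hp2 ⊢
        field_simp
        ring
      have hsum : Tendsto (fun s : ℝ => ∑ j ∈ Finset.range J, (s : ℂ) ^ j * c j (n + 1)) atTop (𝓝 0) := by
        have h1 : Tendsto (fun s : ℝ => ∑ j ∈ Finset.range J, (s : ℂ) ^ j *
          (((n + 1 : ℕ) : ℂ) ^ (s : ℂ) * LSeries (fun m => c j m) (s : ℂ) - c j (n + 1))) atTop (𝓝 0) := by
          have := tendsto_finsetSum (Finset.range J) fun j hj => hlim j (Finset.mem_range.1 hj)
          simpa using this
        have h2 := h1.neg
        rw [neg_zero] at h2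
        refine h2.congr' ?_
        filter_upwards [eventually_gt_atTop 1] with s hs
        have h3 : ∑ j ∈ Finset.range J, (s : ℂ) ^ j *
            (((n + 1 : ℕ) : ℂ) ^ (s : ℂ) * LSeries (fun m => c j m) (s : ℂ) - c j (n + 1)) =
            ((n + 1 : ℕ) : ℂ) ^ (s : ℂ) * (∑ j ∈ Finset.range J, (s : ℂ) ^ j * LSeries (fun m => c j m) (s : ℂ)) -
            ∑ j ∈ Finset.range J, (s : ℂ) ^ j * c j (n + 1) := by
          rw [Finset.mul_sum, ← Finset.sum_sub_distrib]
          exact Finset.sum_congr rfl fun j _ => by ring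
        rw [h3, h s hs, mul_zero, zero_sub, neg_neg]
      set q : Polynomial ℂ := ∑ j ∈ Finset.range J, Polynomial.C (c j (n + 1)) * Polynomial.X ^ j with hq
      have hqe : ∀ s : ℂ, q.eval s = ∑ j ∈ Finset.range J, s ^ j * c j (n + 1) := by
        intro s
        rw [hq, Polynomial.eval_finsetSum]
        refine Finset.sum_congr rfl fun j _ => ?_
        rw [Polynomial.eval_mul, Polynomial.eval_C, Polynomial.eval_pow, Polynomial.eval_X, mul_comm]
      have hq0 : Tendsto (fun s : ℝ => q.eval (s : ℂ)) atTop (𝓝 0) := by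
        simpa only [hqe] using hsum
      have hqz : q = 0 := by
        rcases lt_or_ge 0 q.degree with hd | hd
        · exfalso
          have h1 : Tendsto (fun s : ℝ => ‖q.eval (s : ℂ)‖) atTop atTop := by
            refine q.tendsto_norm_atTop hd ?_
            refine tendsto_id.congr' ?_
            filter_upwards [eventually_ge_atTop 0] with s hs
            rw [Complex.norm_real, Real.norm_of_nonneg hs]
            rfl
          have h2 := hq0.norm
          rw [norm_zero] at h2
          exact not_tendsto_nhds_of_tendsto_atTop h1 0 h2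
        · rw [Polynomial.eq_C_of_degree_le_zero hd] at hq0 ⊢
          simp only [Polynomial.eval_C] at hq0
          have := tendsto_nhds_unique hq0 tendsto_const_nhds
          rw [← this, map_zero]
      intro m hm j hj
      rcases Nat.lt_or_ge m (n + 1) with h1 | h1
      · exact ih m (by omega) j hj
      · have h2 : m = n + 1 := by omega
        subst h2
        have h3 := congrArg (fun P : Polynomial ℂ => P.coeff j) hqz
        simp only [hq, Polynomial.finsetSum_coeff, Polynomial.coeff_C_mul, Polynomial.coeff_X_pow,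
          Polynomial.coeff_zero] at h3
        rw [Finset.sum_eq_single j] at h3
        · simpa using h3
        · intro i _ hi
          rw [if_neg (Ne.symm hi), mul_zero]
        · intro h4
          exact absurd (Finset.mem_range.2 hj) h4
  intro j hj
  exact ArithmeticFunction.ext fun n => key n n le_rfl j hj

section

variable {κ : Type} [Fintype κ] [DecidableEq κ] (f : κ → R0) (u : κ → ℝ → ℝ)

omit [Fintype κ] [DecidableEq κ] in
theorem u_an (hf : ∀ y, Cv (f y)) (hu : ∀ y, ∀ s : ℝ, 1 < s → ((u y s : ℝ) : ℂ) = LSeries (fun n => f y n) (s : ℂ))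
    (y : κ) : AnalyticOnNhd ℝ (u y) (Ioi 1) := by
  intro t ht
  have ht1 : (1 : ℝ) < t := ht
  have h1 : AnalyticAt ℂ (LSeries fun n => f y n) (t : ℂ) := by
    refine LSeries_analyticOnNhd (fun n => f y n) (t : ℂ) ?_
    change LSeries.abscissaOfAbsConv (fun n => f y n) < (((t : ℂ).re : ℝ) : EReal)
    rw [Complex.ofReal_re]
    exact lt_of_le_of_lt (hf y).absc (by exact_mod_cast ht1)
  have h2 := h1.re_ofReal
  refine h2.congr ?_
  filter_upwards [Ioi_mem_nhds ht1] with s hs
  rw [← hu y s hs, Complex.ofReal_re]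

/-- **Independence.** -/
theorem aindL (hf : ∀ y, Cv (f y)) (hind : AlgebraicIndependent ℂ f)
    (hu : ∀ y, ∀ s : ℝ, 1 < s → ((u y s : ℝ) : ℂ) = LSeries (fun n => f y n) (s : ℂ))
    (a b : ℝ) (ha : 1 < a) (hab : a < b) : Pool.Agent.Y120.AInd u a b := by
  intro d p hp
  set G : ℝ → ℝ := fun t => ∑ e : κ → Fin (d + 1), (p e).eval t * ∏ i, u i t ^ (e i : ℕ) with hG
  have hGan : AnalyticOnNhd ℝ G (Ioi 1) := by
    intro t ht
    have h1 : AnalyticAt ℝ (fun t => ∑ e ∈ (Finset.univ : Finset (κ → Fin (d + 1))),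
        (p e).eval t * ∏ i ∈ (Finset.univ : Finset κ), u i t ^ (e i : ℕ)) t := by
      refine Finset.analyticAt_fun_sum _ fun e _ => ?_
      refine AnalyticAt.mul ?_ ?_
      · exact (AnalyticOnNhd.eval_polynomial (p e)) t (mem_univ _)
      · exact Finset.analyticAt_fun_prod _ fun i _ => (u_an f u hf hu i t ht).pow _
    exact h1
  have hG0 : EqOn G 0 (Ioi 1) := by
    have hm : (a + b) / 2 ∈ Ioi (1 : ℝ) := by
      rw [mem_Ioi]
      linarith
    refine hGan.eqOn_zero_of_preconnected_of_eventuallyEq_zero (convex_Ioi 1).isPreconnected hm ?_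
    have h1 : Ioo a b ∈ 𝓝 ((a + b) / 2) := Ioo_mem_nhds (by linarith) (by linarith)
    filter_upwards [h1] with t ht
    exact hp t ⟨ht.1.le, ht.2.le⟩
  set F : κ → A1 := fun y => ⟨f y, hf y⟩ with hF
  set ff : (κ → Fin (d + 1)) → (κ →₀ ℕ) := fun e => Finsupp.equivFunOnFinite.symm fun x => (e x : ℕ) with hff
  have hffi : Function.Injective ff := by
    intro e e' h
    have h1 := Finsupp.equivFunOnFinite.symm.injective h
    funext i
    exact Fin.ext (congrFun h1 i)
  set Q : ℕ → MvPolynomial κ ℂ := fun j => ∑ e : κ → Fin (d + 1),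
    MvPolynomial.monomial (ff e) (((p e).coeff j : ℝ) : ℂ) with hQ
  obtain ⟨J, hJ⟩ : ∃ J : ℕ, ∀ e, (p e).natDegree < J := by
    refine ⟨(∑ e, (p e).natDegree) + 1, fun e => ?_⟩
    exact Nat.lt_succ_of_le (Finset.single_le_sum (f := fun e => (p e).natDegree) (fun _ _ => Nat.zero_le _)
      (Finset.mem_univ e))
  have hev : ∀ j : ℕ, ∀ s : ℝ, ∀ hs : 1 < s, LSeries (fun n => (MvPolynomial.aeval F (Q j)).1 n) (s : ℂ) =
      ∑ e : κ → Fin (d + 1), (((p e).coeff j : ℝ) : ℂ) * ∏ i, ((u i s : ℝ) : ℂ) ^ (e i : ℕ) := by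
    intro j s hs
    rw [← ev_apply s hs, ← AlgHom.comp_apply, MvPolynomial.comp_aeval, hQ]
    simp only
    rw [map_sum]
    refine Finset.sum_congr rfl fun e _ => ?_
    rw [MvPolynomial.aeval_monomial, Finsupp.prod_fintype _ _ (fun i => pow_zero _)]
    congr 1
    refine Finset.prod_congr rfl fun i _ => ?_
    rw [ev_apply, hu i s hs]
    rfl
  have h0 := asym J (fun j => (MvPolynomial.aeval F (Q j)).1) (fun j => (MvPolynomial.aeval F (Q j)).2)
    (fun s hs => by
      have h1 := hG0 (show s ∈ Ioi (1 : ℝ) from hs)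
      rw [Finset.sum_congr rfl fun j _ => by rw [hev j s hs]]
      have h2 : ((G s : ℝ) : ℂ) = 0 := by
        rw [h1]
        simp
      rw [← h2, hG]
      simp only
      push_cast
      simp only [Finset.mul_sum]
      rw [Finset.sum_comm]
      refine Finset.sum_congr rfl fun e _ => ?_
      rw [Polynomial.eval_eq_sum_range' (hJ e)]
      push_cast
      rw [Finset.sum_mul]
      refine Finset.sum_congr rfl fun j _ => ?_
      ring)
  funext e0
  refine Polynomial.ext fun j => ?_
  rw [Pi.zero_apply, Polynomial.coeff_zero]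
  rcases lt_or_ge j J with hj | hj
  · have h1 : MvPolynomial.aeval f (Q j) = 0 := by
      have h2 : (MvPolynomial.aeval F (Q j)).1 = MvPolynomial.aeval f (Q j) := by
        have h3 := MvPolynomial.comp_aeval_apply (R := ℂ) F A1.val (Q j)
        exact h3
      rw [← h2]
      exact h0 j hj
    have h2 : Q j = 0 := by
      have := (algebraicIndependent_iff_injective_aeval.1 hind)
      rw [injective_iff_map_eq_zero] at this
      exact this _ h1
    have h3 : MvPolynomial.coeff (ff e0) (Q j) = (((p e0).coeff j : ℝ) : ℂ) := by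
      rw [hQ]
      simp only
      rw [MvPolynomial.coeff_sum, Finset.sum_eq_single e0]
      · rw [MvPolynomial.coeff_monomial, if_pos rfl]
      · intro e _ he
        rw [MvPolynomial.coeff_monomial, if_neg]
        intro h4
        exact he (hffi h4)
      · intro h4
        exact absurd (Finset.mem_univ _) h4
    rw [h2, MvPolynomial.coeff_zero] at h3
    exact_mod_cast h3.symm
  · exact Polynomial.coeff_eq_zero_of_natDegree_lt (lt_of_lt_of_le (hJ e0) hj)

end

end Pool.Agent.R353.LZ
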